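import Mathlib

/-!
Solvable pebbling distributions on large grids with an interior vertex of value arbitrarily close
to 4/3 and arbitrarily far from the boundary, also after hemming.
-/

set_option autoImplicit false

namespace Pool.Agent.Results.MP_33b0ad_co.SharpUpper

open SimpleGraph

/-- The `m x n` grid graph: box product of two paths. -/
def grid (m n : ℕ) : SimpleGraph (Fin m × Fin n) := pathGraph m □ pathGraph n

/-- `x` is neither in the first or last row nor in the first or last column. -/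
def IsInterior {m n : ℕ} (x : Fin m × Fin n) : Prop :=
  0 < x.1.val ∧ x.1.val + 1 < m ∧ 0 < x.2.val ∧ x.2.val + 1 < n

/-- One pebbling move: two pebbles leave `u` and one pebble is put on a neighbour `v`. -/
def Move {V : Type} [DecidableEq V] (G : SimpleGraph V) (P Q : V → ℕ) : Prop :=
  ∃ u v : V, G.Adj u v ∧ 2 ≤ P u ∧
    Q = fun w => if w = u then P u - 2 else if w = v then P v + 1 else P w

/-- Every vertex receives a pebble after some finite sequence of moves. -/
def Solvable {V : Type} [DecidableEq V] (G : SimpleGraph V) (P : V → ℕ) : Prop :=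
  ∀ y : V, ∃ Q : V → ℕ, Relation.ReflTransGen (Move G) P Q ∧ 1 ≤ Q y

/-- The value `v(x) = sum_y P(y) 2^(-d(x,y))`, with `d` the graph distance. -/
noncomputable def value {V : Type} [Fintype V] (G : SimpleGraph V) (P : V → ℕ) (x : V) : ℝ :=
  ∑ y : V, (P y : ℝ) * (2 : ℝ) ^ (-(G.dist x y : ℤ))

open Classical in
/-- The hemmed distribution: two more pebbles on every boundary vertex. -/
noncomputable def hem {m n : ℕ} (P : Fin m × Fin n → ℕ) (y : Fin m × Fin n) : ℕ :=
  if IsInterior y then P y else P y + 2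

/-! ### Reachability -/

section Gen
variable {V : Type} [DecidableEq V] {G : SimpleGraph V}

/-- some sequence of moves from `P` ends above `Q` -/
def Rch (G : SimpleGraph V) (P Q : V → ℕ) : Prop :=
  ∃ R : V → ℕ, Relation.ReflTransGen (Move G) P R ∧ ∀ w, Q w ≤ R w

lemma move_add {P Q : V → ℕ} (S : V → ℕ) (h : Move G P Q) : Move G (P + S) (Q + S) := by
  obtain ⟨u, v, h1, h2, rfl⟩ := h
  refine ⟨u, v, h1, by simp only [Pi.add_apply]; omega, funext fun w => ?_⟩
  simp only [Pi.add_apply]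
  split_ifs with a b
  · subst a; omega
  · subst b; omega
  · rfl

lemma moves_add {P Q : V → ℕ} (S : V → ℕ) (h : Relation.ReflTransGen (Move G) P Q) :
    Relation.ReflTransGen (Move G) (P + S) (Q + S) := by
  induction h with
  | refl => exact .refl
  | tail _ h ih => exact ih.tail (move_add S h)

lemma rch_of_le {P Q : V → ℕ} (h : ∀ w, Q w ≤ P w) : Rch G P Q := ⟨P, .refl, h⟩

lemma Rch.trans {P Q R : V → ℕ} (h : Rch G P Q) (h' : Rch G Q R) : Rch G P R := by
  obtain ⟨Q', h1, h2⟩ := h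
  obtain ⟨R', h3, h4⟩ := h'
  have : Q' = Q + (Q' - Q) := funext fun w => by
    have := h2 w
    simp only [Pi.add_apply, Pi.sub_apply]; omega
  refine ⟨R' + (Q' - Q), h1.trans ?_, fun w => ?_⟩
  · nth_rewrite 1 [this]
    exact moves_add _ h3
  · have := h4 w
    simp only [Pi.add_apply]; omega

lemma Rch.add {P Q P' Q' : V → ℕ} (h : Rch G P Q) (h' : Rch G P' Q') :
    Rch G (P + P') (Q + Q') := by
  obtain ⟨R, h1, h2⟩ := h
  obtain ⟨R', h3, h4⟩ := h'
  have h5 := moves_add R h3
  rw [add_comm P', add_comm R'] at h5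
  exact ⟨_, (moves_add P' h1).trans h5, fun w => add_le_add (h2 w) (h4 w)⟩

lemma rch_single (v : V) {k l : ℕ} (h : l ≤ k) : Rch G (Pi.single v k) (Pi.single v l) :=
  rch_of_le fun w => by
    by_cases e : w = v
    · subst e; simpa using h
    · simp [e]

lemma rch_edge {u v : V} (a : G.Adj u v) (k : ℕ) :
    Rch G (Pi.single u (k * 2)) (Pi.single v k) := by
  induction k with
  | zero => exact rch_of_le fun w => by simp
  | succ k ih =>
    rw [add_mul, Pi.single_add, Pi.single_add]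
    refine ih.add ⟨_, .single ⟨u, v, a, by simp, rfl⟩, fun w => ?_⟩
    by_cases e : w = v
    · subst e; simp [a.ne']
    · simp [e]

omit [DecidableEq V] in
lemma value_add [Fintype V] (P P' : V → ℕ) (x : V) :
    value G (P + P') x = value G P x + value G P' x := by
  simp [value, add_mul, Finset.sum_add_distrib]

lemma value_single [Fintype V] (y x : V) (k : ℕ) :
    value G (Pi.single y k) x = k / 2 ^ G.dist x y := by
  rw [value, Finset.sum_eq_single y (fun w _ hw => by simp [hw]) (by simp), Pi.single_eq_same,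
    div_eq_mul_inv, ← zpow_natCast, ← zpow_neg]

end Gen

/-! ### The grid -/

lemma adj_iff {m n : ℕ} {u v : Fin m × Fin n} : (grid m n).Adj u v ↔
    (u.1.val + 1 = v.1.val ∨ v.1.val + 1 = u.1.val) ∧ u.2.val = v.2.val ∨
    (u.2.val + 1 = v.2.val ∨ v.2.val + 1 = u.2.val) ∧ u.1.val = v.1.val := by
  simp only [grid, boxProd_adj, pathGraph_adj, Fin.ext_iff]

/-- the taxicab distance -/
def taxi {m n : ℕ} (u v : Fin m × Fin n) : ℕ :=
  (u.1.val - v.1.val) + (v.1.val - u.1.val) + (u.2.val - v.2.val) + (v.2.val - u.2.val)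

lemma conn (m n : ℕ) : (grid (m + 1) (n + 1)).Connected :=
  (pathGraph_connected m).boxProd (pathGraph_connected n)

lemma taxi_zero {m n : ℕ} {a v : Fin m × Fin n} (h : taxi a v ≤ 0) : a = v := by
  simp only [taxi] at h
  exact Prod.ext (Fin.ext (by omega)) (Fin.ext (by omega))

lemma taxi_step {m n k : ℕ} (a v : Fin m × Fin n) (h : taxi a v = k + 1) :
    ∃ w, (grid m n).Adj w v ∧ taxi a w = k := by
  obtain ⟨⟨i, hi⟩, ⟨j, hj⟩⟩ := v
  have h1 := a.1.2
  have h2 := a.2.2
  simp only [taxi] at h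
  rcases lt_trichotomy i a.1.val with c | c | c
  · exact ⟨(⟨i + 1, by omega⟩, ⟨j, hj⟩), adj_iff.2 (by simp), by simp only [taxi]; omega⟩
  · rcases lt_trichotomy j a.2.val with d | d | d
    · exact ⟨(⟨i, hi⟩, ⟨j + 1, by omega⟩), adj_iff.2 (by simp), by simp only [taxi]; omega⟩
    · omega
    · exact ⟨(⟨i, hi⟩, ⟨j - 1, by omega⟩), adj_iff.2 (by simp; omega), by simp only [taxi]; omega⟩
  · exact ⟨(⟨i - 1, by omega⟩, ⟨j, hj⟩), adj_iff.2 (by simp; omega), by simp only [taxi]; omega⟩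

lemma dist_eq {m n : ℕ} (u v : Fin (m + 1) × Fin (n + 1)) :
    (grid (m + 1) (n + 1)).dist u v = taxi u v := by
  refine le_antisymm ?_ ?_
  · obtain ⟨k, hk⟩ : ∃ k, taxi u v = k := ⟨_, rfl⟩
    rw [hk]
    induction k generalizing v with
    | zero => rw [taxi_zero hk.le, dist_self]
    | succ k ih =>
      obtain ⟨w, a, h⟩ := taxi_step u v hk
      exact ((conn m n).dist_triangle (v := w)).trans
        (add_le_add (ih w h) (dist_eq_one_iff_adj.2 a).le)
  · obtain ⟨p, hp⟩ := (conn m n).exists_walk_length_eq_dist u v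
    rw [← hp]
    clear hp
    induction p with
    | nil => simp [taxi]
    | @cons a b c h p ih =>
      rw [adj_iff] at h
      simp only [taxi, Walk.length_cons] at ih ⊢
      omega

lemma rch_pile {m n : ℕ} (a : Fin m × Fin n) (d : ℕ) : ∀ v k, taxi a v ≤ d →
    Rch (grid m n) (Pi.single a (k * 2 ^ d)) (Pi.single v k) := by
  induction d with
  | zero =>
    intro v k h
    rw [taxi_zero h]
    exact rch_single v (by simp)
  | succ d ih =>
    intro v k h
    rcases h.lt_or_eq with c | c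
    · exact (rch_single a (by rw [pow_succ, ← mul_assoc]; omega)).trans (ih v k (by omega))
    · obtain ⟨w, hw, e⟩ := taxi_step a v c
      rw [pow_succ', ← mul_assoc]
      exact (ih w _ e.le).trans (rch_edge hw k)

/-! ### Four piles on the square grid of side `2 K + 7` with centre `(K + 3, K + 3)` -/

section Ex
variable (K : ℕ)

/-- the vertices -/
abbrev Vx : Type := Fin (2 * K + 6 + 1) × Fin (2 * K + 6 + 1)

/-- the vertex with coordinates `i`, `j` -/
def pt (i j : ℕ) : Vx K := (⟨min i (2 * K + 6), by omega⟩, ⟨min j (2 * K + 6), by omega⟩)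

/-- the unit of the piles -/
def tt : ℕ := 2 ^ (K + 3) / 18 + 1

/-- two piles at the ends of the row `ρ` -/
def row (ρ : ℕ) : Vx K → ℕ :=
  Pi.single (pt K (2 * K + 6) ρ) (tt K * 2 ^ (K + 6)) + Pi.single (pt K 0 ρ) (tt K * 2 ^ (K + 5))

/-- the distribution -/
def P₀ : Vx K → ℕ := row K 0 + row K (2 * K + 6)

lemma col (ρ i j e a b : ℕ) (hi : i ≤ 2 * K + 6) (hρ : ρ ≤ 2 * K + 6) (hj : j ≤ 2 * K + 6)
    (he : (ρ - j) + (j - ρ) ≤ e) (ha : a * 2 ^ (2 * K + 6 - i) ≤ tt K * 2 ^ (K + 6))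
    (hb : b * 2 ^ i ≤ tt K * 2 ^ (K + 5)) (h : 2 ^ e ≤ a + b) :
    Rch (grid _ _) (row K ρ) (Pi.single (pt K i j) 1) := by
  have h1 := (rch_single _ ha).trans (rch_pile (pt K (2 * K + 6) ρ) _ (pt K i ρ) a
    (by simp only [taxi, pt]; omega))
  have h2 := (rch_single _ hb).trans (rch_pile (pt K 0 ρ) _ (pt K i ρ) b
    (by simp only [taxi, pt]; omega))
  have h3 := h1.add h2
  rw [← Pi.single_add] at h3
  exact (h3.trans (rch_single _ (by simpa using h))).trans
    (rch_pile (pt K i ρ) e (pt K i j) 1 (by simp only [taxi, pt]; omega))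

lemma col' (ρ i j e : ℕ) (hi : i ≤ 2 * K + 6) (hρ : ρ ≤ 2 * K + 6) (hj : j ≤ 2 * K + 6)
    (he : (ρ - j) + (j - ρ) ≤ e) (h : e ≤ K + 2 ∨ e ≤ K + 3 ∧ i ≠ K + 2 ∧ i ≠ K + 3) :
    Rch (grid _ _) (row K ρ) (Pi.single (pt K i j) 1) := by
  have p : ∀ f g l : ℕ, f + g ≤ l → tt K * 2 ^ f * 2 ^ g ≤ tt K * 2 ^ l := fun f g l h => by
    rw [mul_assoc, ← pow_add]
    exact Nat.mul_le_mul_left _ (Nat.pow_le_pow_right two_pos h)
  have t1 : 2 ^ (K + 2) * 2 ≤ 18 * tt K := by
    rw [show 2 ^ (K + 2) * 2 = 2 ^ (K + 3) from rfl, tt]; omega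
  have t2 : 2 ^ e ≤ 2 ^ (K + 2) * 2 := by
    rw [← pow_succ]; exact Nat.pow_le_pow_right two_pos (by omega)
  have t3 : e ≤ K + 2 → 2 ^ e ≤ 2 ^ (K + 2) := Nat.pow_le_pow_right two_pos
  have c : i ≤ K ∨ i = K + 1 ∨ i = K + 2 ∨ i = K + 3 ∨ i = K + 4 ∨ K + 5 ≤ i := by omega
  rcases c with c | c | c | c | c | c
  · exact col K ρ i j e 0 _ hi hρ hj he (by simp) (p 5 _ _ (by omega)) (by omega)
  · exact col K ρ i j e _ _ hi hρ hj he (p 1 _ _ (by omega)) (p 4 _ _ (by omega)) (by omega)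
  · exact col K ρ i j e _ _ hi hρ hj he (p 2 _ _ (by omega)) (p 3 _ _ (by omega)) (by omega)
  · exact col K ρ i j e _ _ hi hρ hj he (p 3 _ _ (by omega)) (p 2 _ _ (by omega)) (by omega)
  · exact col K ρ i j e _ _ hi hρ hj he (p 4 _ _ (by omega)) (p 1 _ _ (by omega)) (by omega)
  · exact col K ρ i j e _ 0 hi hρ hj he (p 5 _ _ (by omega)) (by simp) (by omega)

lemma two (i i' : ℕ) (h : i = K + 1 ∧ i' = K + 2 ∨ i = K + 4 ∧ i' = K + 3) :
    Rch (grid _ _) (P₀ K) (Pi.single (pt K i' (K + 3)) 1) := by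
  have h1 := (col' K 0 i (K + 3) (K + 3) (by omega) (by omega) (by omega) (by omega)
    (by omega)).add (col' K (2 * K + 6) i (K + 3) (K + 3) (by omega) (by omega) (by omega)
      (by omega) (by omega))
  rw [← Pi.single_add] at h1
  exact h1.trans (rch_edge (adj_iff.2 (by dsimp only [pt]; omega)) 1)

lemma solvable : Solvable (grid _ _) (P₀ K) := by
  rintro ⟨⟨i, hi⟩, ⟨j, hj⟩⟩
  have e : ((⟨i, hi⟩, ⟨j, hj⟩) : Vx K) = pt K i j := by
    simp only [pt, Prod.mk.injEq, Fin.mk.injEq]; omega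
  rw [e]
  suffices h : Rch (grid _ _) (P₀ K) (Pi.single (pt K i j) 1) by
    obtain ⟨R, h1, h2⟩ := h
    exact ⟨R, h1, by simpa using h2 (pt K i j)⟩
  have r1 : Rch (grid _ _) (P₀ K) (row K 0) := rch_of_le fun w => Nat.le_add_right _ _
  have r2 : Rch (grid _ _) (P₀ K) (row K (2 * K + 6)) := rch_of_le fun w => Nat.le_add_left _ _
  rcases lt_trichotomy j (K + 3) with c | rfl | c
  · exact r1.trans (col' K 0 i j (K + 2) (by omega) (by omega) (by omega) (by omega) (by omega))
  · by_cases d : i = K + 2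
    · exact two K (K + 1) i (by omega)
    · by_cases d' : i = K + 3
      · exact two K (K + 4) i (by omega)
      · exact r1.trans (col' K 0 i _ (K + 3) (by omega) (by omega) (by omega) (by omega)
          (by omega))
  · exact r2.trans (col' K _ i j (K + 2) (by omega) (by omega) (by omega) (by omega) (by omega))

lemma value_P₀ :
    value (grid _ _) (P₀ K) (pt K (K + 3) (K + 3)) ≤ 4 / 3 + 24 / 2 ^ (K + 3) := by
  have h0 : ∀ i j, (i = 0 ∨ i = 2 * K + 6) → (j = 0 ∨ j = 2 * K + 6) →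
      (grid _ _).dist (pt K (K + 3) (K + 3)) (pt K i j) = 2 * K + 6 := fun i j h h' => by
    rw [dist_eq]; simp only [taxi, pt]; omega
  have h1 : (tt K : ℝ) ≤ 2 ^ (K + 3) / 18 + 1 := by
    have := Nat.cast_div_le (α := ℝ) (m := 2 ^ (K + 3)) (n := 18)
    rw [tt]; push_cast at this ⊢; linarith
  simp only [P₀, row, value_add, value_single]
  rw [h0 _ _ (by omega) (by omega), h0 _ _ (by omega) (by omega), h0 _ _ (by omega) (by omega),
    h0 _ _ (by omega) (by omega)]
  calc _ = (tt K : ℝ) * (24 / 2 ^ (K + 3)) := by push_cast; field_simp; ring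
    _ ≤ (2 ^ (K + 3) / 18 + 1) * (24 / 2 ^ (K + 3)) := by gcongr
    _ = _ := by field_simp; ring

lemma bd_dist (y : Vx K) (h : ¬ IsInterior y) :
    K + 3 ≤ (grid _ _).dist (pt K (K + 3) (K + 3)) y := by
  rw [dist_eq]
  have h1 := y.1.2
  have h2 := y.2.2
  simp only [IsInterior] at h
  simp only [taxi, pt]
  omega

lemma value_hem (P : Vx K → ℕ) : value (grid _ _) (hem P) (pt K (K + 3) (K + 3)) ≤
    value (grid _ _) P (pt K (K + 3) (K + 3)) + (2 * K + 7) ^ 2 * (2 / 2 ^ (K + 3)) := by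
  have : ((2 * K + 7) ^ 2 * (2 / 2 ^ (K + 3)) : ℝ) = ∑ _y : Vx K, (2 / 2 ^ (K + 3) : ℝ) := by
    simp only [Finset.sum_const, Finset.card_univ, Fintype.card_prod, Fintype.card_fin,
      nsmul_eq_mul]
    push_cast; ring
  rw [this, value, value, ← Finset.sum_add_distrib]
  refine Finset.sum_le_sum fun y _ => ?_
  rw [hem]
  split_ifs with h
  · exact le_add_of_nonneg_right (by positivity)
  · have := bd_dist K y h
    push_cast
    rw [add_mul, add_le_add_iff_left, div_eq_mul_inv, ← zpow_natCast, ← zpow_neg]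
    exact mul_le_mul_of_nonneg_left (zpow_le_zpow_right₀ one_le_two (by omega)) (by norm_num)

end Ex

lemma small (r : ℕ) {ε : ℝ} (hε : 0 < ε) : ∃ K : ℕ, r ≤ K ∧
    24 / 2 ^ (K + 3) + (2 * K + 7) ^ 2 * (2 / 2 ^ (K + 3)) < ε := by
  have h := (tendsto_pow_const_div_const_pow_of_one_lt 2 (one_lt_two (α := ℝ))).eventually
    (gt_mem_nhds (half_pos (half_pos (half_pos (half_pos hε)))))
  obtain ⟨N, hN⟩ := Filter.eventually_atTop.1 h
  refine ⟨max r N, le_max_left _ _, ?_⟩
  have h1 := hN (max r N + 3) (by omega)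
  generalize max r N = K at *
  have h2 : (0 : ℝ) ≤ K := Nat.cast_nonneg K
  have h3 : (0 : ℝ) < 2 ^ (K + 3) := by positivity
  push_cast at h1
  rw [div_lt_iff₀ h3] at h1
  rw [← mul_div_assoc, ← add_div, div_lt_iff₀ h3]
  nlinarith

/-- For all `r` and `ε > 0` there are a grid, a solvable distribution `P` and an interior vertex `X`
at distance at least `r` from every boundary vertex whose value is less than `4/3 + ε`, both for
`P` and for the hemmed distribution of `P`. -/
theorem result : ∀ (r : ℕ) (ε : ℝ), 0 < ε →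
    ∃ (m n : ℕ) (P : Fin m × Fin n → ℕ) (X : Fin m × Fin n),
      1 ≤ m ∧ 1 ≤ n ∧ Solvable (grid m n) P ∧ IsInterior X ∧
      (∀ y, ¬ IsInterior y → r ≤ (grid m n).dist X y) ∧
      value (grid m n) P X < 4 / 3 + ε ∧ value (grid m n) (hem P) X < 4 / 3 + ε := by
  intro r ε hε
  obtain ⟨K, hK, h3⟩ := small r hε
  have h1 := value_P₀ K
  have h2 := value_hem K (P₀ K)
  have h4 : (0 : ℝ) ≤ (2 * K + 7) ^ 2 * (2 / 2 ^ (K + 3)) := by positivity
  exact ⟨_, _, P₀ K, pt K (K + 3) (K + 3), by omega, by omega, solvable _,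
    by simp only [IsInterior, pt]; omega, fun y hy => le_trans (by omega) (bd_dist _ y hy),
    by linarith, by linarith⟩

end Pool.Agent.Results.MP_33b0ad_co.SharpUpper
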